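import Mathlib
import Pool.Agent.Helper42_CG.Stmt

/-!
# CGP, module FOR: spanning forests
-/

set_option autoImplicit false

namespace Pool.Agent.CGP.H17

open SimpleGraph Pool.Agent.LAG Pool.Agent.LLG Pool.Agent.CGP

variable {W : Type}

theorem lnk_mono (G : SimpleGraph W) {F F' : Set (Sym2 W)} (h : F ⊆ F') :
    lnk G ∅ F ≤ lnk G ∅ F' := by
  intro a b hab
  exact ⟨hab.1, hab.2.elim (fun h => absurd h.1 (Set.notMem_empty a)) (fun hh => Or.inr (h hh))⟩

/-- Closed sets are closed under reachability. -/
theorem closed_reach (G : SimpleGraph W) {F : Set (Sym2 W)} {Q : Set W}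
    (hQ : ∀ a ∈ Q, ∀ b, (lnk G ∅ F).Adj a b → b ∈ Q) {a b : W} (ha : a ∈ Q)
    (h : (lnk G ∅ F).Reachable a b) : b ∈ Q := by
  obtain ⟨p⟩ := h
  induction p with
  | nil => exact ha
  | cons hadj _ ih => exact ih (hQ _ ha _ hadj)

open scoped Classical in
theorem forest [Fintype W] [DecidableEq W] (G : SimpleGraph W) :
    ∀ (n : ℕ) (B T : Finset W) (m : ℕ), B.card = n → Disjoint B T →
    (∀ Q : Finset W, Q ⊆ B → Q.Nonempty →
      (∀ a ∈ Q, ∀ b, G.Adj a b → (b ∈ B → b ∈ Q) ∧ b ∉ T) → m ≤ Q.card) →
    ∃ (F : Finset (Sym2 W)) (R : Finset W), R ⊆ B ∧ m * R.card ≤ B.card ∧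
      F.card + R.card = B.card ∧
      (∀ l ∈ F, l ∈ G.edgeSet ∧ (∃ w ∈ l, w ∈ B) ∧ ∀ w ∈ l, w ∈ B ∪ T) ∧
      (∀ w ∈ B, ∃ w', (w' ∈ R ∨ w' ∈ T) ∧ (lnk G ∅ (F : Set (Sym2 W))).Reachable w' w) ∧
      ∀ Q : Finset W, Q ⊆ B → Q.Nonempty →
        (∀ a ∈ Q, ∀ b, (lnk G ∅ (F : Set (Sym2 W))).Adj a b → b ∈ Q) → m ≤ Q.card := by
  intro n
  induction n using Nat.strong_induction_on with
  | _ n ih =>
    intro B T m hn hBT hyp
    rcases B.eq_empty_or_nonempty with hB | hB
    · subst hB
      refine ⟨∅, ∅, Finset.Subset.refl _, by simp, by simp, by simp, by simp, ?_⟩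
      intro Q hQ hne
      exact absurd (Finset.subset_empty.mp hQ) hne.ne_empty
    by_cases h1 : ∃ b ∈ B, ∃ t ∈ T, G.Adj t b
    · obtain ⟨b, hb, t, ht, htb⟩ := h1
      have hbT : b ∉ T := Finset.disjoint_left.mp hBT hb
      have htB : t ∉ B := fun h => Finset.disjoint_left.mp hBT h ht
      have hc : (B.erase b).card < n := by
        rw [← hn]; exact Finset.card_erase_lt_of_mem hb
      obtain ⟨F, R, hR, hmR, hFR, hF, hre, hcl⟩ := ih _ hc (B.erase b) (insert b T) m rfl
        (by
          rw [Finset.disjoint_left]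
          intro x hx hx'
          rcases Finset.mem_insert.mp hx' with rfl | hx'
          · exact absurd rfl (Finset.ne_of_mem_erase hx)
          · exact Finset.disjoint_left.mp hBT (Finset.mem_of_mem_erase hx) hx')
        (by
          intro Q hQ hne hcl
          refine hyp Q (hQ.trans (Finset.erase_subset _ _)) hne ?_
          intro a ha x hax
          have := hcl a ha x hax
          refine ⟨fun hx => this.1 (Finset.mem_erase.mpr ⟨?_, hx⟩),
            fun hx => this.2 (Finset.mem_insert_of_mem hx)⟩
          rintro rfl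
          exact this.2 (Finset.mem_insert_self _ _))
      have hnF : s(t, b) ∉ F := by
        intro h
        obtain ⟨w, hw, hwB⟩ := (hF _ h).2.1
        rcases Sym2.mem_iff.mp hw with rfl | rfl
        · exact htB (Finset.mem_of_mem_erase hwB)
        · exact absurd rfl (Finset.ne_of_mem_erase hwB)
      have hmono : lnk G ∅ (F : Set (Sym2 W)) ≤ lnk G ∅ ((insert s(t, b) F : Finset (Sym2 W)) :
          Set (Sym2 W)) := lnk_mono G (by
        intro x hx; simp only [Finset.coe_insert]; exact Set.mem_insert_of_mem _ hx)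
      have hadj : (lnk G ∅ ((insert s(t, b) F : Finset (Sym2 W)) : Set (Sym2 W))).Adj t b :=
        ⟨htb.ne, Or.inr (by simp)⟩
      have hcB : (B.erase b).card + 1 = B.card := Finset.card_erase_add_one hb
      refine ⟨insert s(t, b) F, R, hR.trans (Finset.erase_subset _ _), by omega, ?_, ?_, ?_, ?_⟩
      · rw [Finset.card_insert_of_notMem hnF]; omega
      · intro l hl
        rcases Finset.mem_insert.mp hl with rfl | hl
        · refine ⟨htb, ⟨b, Sym2.mem_mk_right _ _, hb⟩, ?_⟩
          intro w hw
          rcases Sym2.mem_iff.mp hw with rfl | rfl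
          · exact Finset.mem_union_right _ ht
          · exact Finset.mem_union_left _ hb
        · obtain ⟨h1, ⟨w, hw, hwB⟩, h3⟩ := hF l hl
          refine ⟨h1, ⟨w, hw, Finset.mem_of_mem_erase hwB⟩, ?_⟩
          intro w hw
          rcases Finset.mem_union.mp (h3 w hw) with h | h
          · exact Finset.mem_union_left _ (Finset.mem_of_mem_erase h)
          · rcases Finset.mem_insert.mp h with rfl | h
            · exact Finset.mem_union_left _ hb
            · exact Finset.mem_union_right _ h
      · intro w hw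
        by_cases hwb : w = b
        · subst hwb
          exact ⟨t, Or.inr ht, hadj.reachable⟩
        · obtain ⟨w', hw', hr⟩ := hre w (Finset.mem_erase.mpr ⟨hwb, hw⟩)
          rcases hw' with h | h
          · exact ⟨w', Or.inl h, hr.mono hmono⟩
          · rcases Finset.mem_insert.mp h with rfl | h
            · exact ⟨t, Or.inr ht, hadj.reachable.trans (hr.mono hmono)⟩
            · exact ⟨w', Or.inr h, hr.mono hmono⟩
      · intro Q hQ hne hQc
        have hbQ : b ∉ Q := fun h => htB (hQ (hQc b h t hadj.symm))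
        refine hcl Q (fun x hx => Finset.mem_erase.mpr ⟨?_, hQ hx⟩) hne
          (fun a ha x hax => hQc a ha x (hmono hax))
        rintro rfl
        exact hbQ hx
    · push Not at h1
      -- a minimal closed set
      obtain ⟨Q0, hQ0, hmin⟩ := Finset.exists_min_image
        (B.powerset.filter fun Q => Q.Nonempty ∧ ∀ a ∈ Q, ∀ b ∈ B, G.Adj a b → b ∈ Q)
        Finset.card ⟨B, by
          rw [Finset.mem_filter, Finset.mem_powerset]
          exact ⟨Finset.Subset.refl _, hB, fun a _ b hb _ => hb⟩⟩
      rw [Finset.mem_filter, Finset.mem_powerset] at hQ0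
      obtain ⟨hQB, ⟨r, hr⟩, hQcl⟩ := hQ0
      have hmQ : m ≤ Q0.card := by
        refine hyp Q0 hQB ⟨r, hr⟩ ?_
        intro a ha b hab
        exact ⟨fun hb => hQcl a ha b hb hab, fun hb => h1 a (hQB ha) b hb hab.symm⟩
      have hrc : (Q0.erase r).card + 1 = Q0.card := Finset.card_erase_add_one hr
      have hQBc : Q0.card ≤ B.card := Finset.card_le_card hQB
      have hsd : (B \ Q0).card + Q0.card = B.card := Finset.card_sdiff_add_card_eq_card hQB
      obtain ⟨F1, R1, hR1, hmR1, hFR1, hF1, hre1, -⟩ := ih (Q0.erase r).card (by omega)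
        (Q0.erase r) {r} (B.card + 1) rfl (by
          rw [Finset.disjoint_left]
          intro x hx hx'
          rw [Finset.mem_singleton] at hx'
          exact Finset.ne_of_mem_erase hx hx')
        (by
          intro Q hQ hne hcl
          exfalso
          have hlt : Q.card < Q0.card := by
            have := Finset.card_le_card hQ
            omega
          refine absurd (hmin Q ?_) (not_le.mpr hlt)
          rw [Finset.mem_filter, Finset.mem_powerset]
          refine ⟨(hQ.trans (Finset.erase_subset _ _)).trans hQB, hne, ?_⟩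
          intro a ha b hb hab
          have hbr := (hcl a ha b hab).2
          rw [Finset.mem_singleton] at hbr
          exact (hcl a ha b hab).1 (Finset.mem_erase.mpr
            ⟨hbr, hQcl a (Finset.mem_of_mem_erase (hQ ha)) b hb hab⟩))
      have hR1e : R1.card = 0 := by
        by_contra h
        have h2 : 1 ≤ R1.card := Nat.one_le_iff_ne_zero.mpr h
        have h3 : B.card + 1 ≤ (B.card + 1) * R1.card := Nat.le_mul_of_pos_right _ h2
        omega
      have hR1e' : R1 = ∅ := Finset.card_eq_zero.mp hR1e
      obtain ⟨F2, R2, hR2, hmR2, hFR2, hF2, hre2, hcl2⟩ := ih (B \ Q0).card (by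
          have : 1 ≤ Q0.card := Finset.card_pos.mpr ⟨r, hr⟩
          omega)
        (B \ Q0) T m rfl (Finset.disjoint_of_subset_left Finset.sdiff_subset hBT)
        (by
          intro Q hQ hne hcl
          refine hyp Q (hQ.trans Finset.sdiff_subset) hne ?_
          intro a ha b hab
          refine ⟨fun hb => (hcl a ha b hab).1 (Finset.mem_sdiff.mpr ⟨hb, fun hb0 => ?_⟩),
            (hcl a ha b hab).2⟩
          have haB := Finset.mem_sdiff.mp (hQ ha)
          exact haB.2 (hQcl b hb0 a haB.1 hab.symm))
      have hdF : Disjoint F1 F2 := by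
        rw [Finset.disjoint_left]
        intro l hl1 hl2
        obtain ⟨w, hw, hwQ⟩ := (hF1 l hl1).2.1
        have hwQ' := Finset.mem_of_mem_erase hwQ
        rcases Finset.mem_union.mp ((hF2 l hl2).2.2 w hw) with h | h
        · exact (Finset.mem_sdiff.mp h).2 hwQ'
        · exact Finset.disjoint_left.mp hBT (hQB hwQ') h
      have hrR2 : r ∉ R2 := fun h => (Finset.mem_sdiff.mp (hR2 h)).2 hr
      have hm1 : lnk G ∅ (F1 : Set (Sym2 W)) ≤ lnk G ∅ ((F1 ∪ F2 : Finset (Sym2 W)) :
          Set (Sym2 W)) := lnk_mono G (by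
        intro x hx; exact Finset.mem_coe.mpr (Finset.mem_union_left _ (Finset.mem_coe.mp hx)))
      have hm2 : lnk G ∅ (F2 : Set (Sym2 W)) ≤ lnk G ∅ ((F1 ∪ F2 : Finset (Sym2 W)) :
          Set (Sym2 W)) := lnk_mono G (by
        intro x hx; exact Finset.mem_coe.mpr (Finset.mem_union_right _ (Finset.mem_coe.mp hx)))
      have hre1' : ∀ w ∈ Q0, (lnk G ∅ ((F1 ∪ F2 : Finset (Sym2 W)) : Set (Sym2 W))).Reachable r w := by
        intro w hw
        by_cases hwr : w = r
        · rw [hwr]
        · obtain ⟨w', hw', hrw⟩ := hre1 w (Finset.mem_erase.mpr ⟨hwr, hw⟩)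
          rcases hw' with h | h
          · rw [hR1e'] at h; exact absurd h (Finset.notMem_empty _)
          · rw [Finset.mem_singleton] at h
            rw [← h]; exact hrw.mono hm1
      refine ⟨F1 ∪ F2, insert r R2, ?_, ?_, ?_, ?_, ?_, ?_⟩
      · intro x hx
        rcases Finset.mem_insert.mp hx with rfl | hx
        · exact hQB hr
        · exact (Finset.mem_sdiff.mp (hR2 hx)).1
      · rw [Finset.card_insert_of_notMem hrR2, mul_add, mul_one]; omega
      · rw [Finset.card_union_of_disjoint hdF, Finset.card_insert_of_notMem hrR2]; omega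
      · intro l hl
        rcases Finset.mem_union.mp hl with hl | hl
        · obtain ⟨h1, ⟨w, hw, hwB⟩, h3⟩ := hF1 l hl
          refine ⟨h1, ⟨w, hw, hQB (Finset.mem_of_mem_erase hwB)⟩, ?_⟩
          intro w hw
          rcases Finset.mem_union.mp (h3 w hw) with h | h
          · exact Finset.mem_union_left _ (hQB (Finset.mem_of_mem_erase h))
          · rw [Finset.mem_singleton] at h
            rw [h]; exact Finset.mem_union_left _ (hQB hr)
        · obtain ⟨h1, ⟨w, hw, hwB⟩, h3⟩ := hF2 l hl
          refine ⟨h1, ⟨w, hw, (Finset.mem_sdiff.mp hwB).1⟩, ?_⟩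
          intro w hw
          rcases Finset.mem_union.mp (h3 w hw) with h | h
          · exact Finset.mem_union_left _ (Finset.mem_sdiff.mp h).1
          · exact Finset.mem_union_right _ h
      · intro w hw
        by_cases hwQ : w ∈ Q0
        · exact ⟨r, Or.inl (Finset.mem_insert_self _ _), hre1' w hwQ⟩
        · obtain ⟨w', hw', hrw⟩ := hre2 w (Finset.mem_sdiff.mpr ⟨hw, hwQ⟩)
          exact ⟨w', hw'.imp (fun h => Finset.mem_insert_of_mem h) id, hrw.mono hm2⟩
      · intro Q hQ hne hQc
        by_cases hd : (Q \ Q0).Nonempty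
        · have : m ≤ (Q \ Q0).card := by
            refine hcl2 (Q \ Q0) (Finset.sdiff_subset_sdiff hQ (Finset.Subset.refl _)) hd ?_
            intro a ha b hab
            have ha' := Finset.mem_sdiff.mp ha
            have hbQ := hQc a ha'.1 b (hm2 hab)
            refine Finset.mem_sdiff.mpr ⟨hbQ, ?_⟩
            rcases hab.2 with h | h
            · exact absurd h.1 (Set.notMem_empty a)
            · have := (hF2 _ (Finset.mem_coe.mp h)).2.2 b (Sym2.mem_mk_right _ _)
              rcases Finset.mem_union.mp this with h | h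
              · exact (Finset.mem_sdiff.mp h).2
              · exact absurd h (Finset.disjoint_left.mp hBT (hQ hbQ))
          exact this.trans (Finset.card_le_card Finset.sdiff_subset)
        · rw [Finset.not_nonempty_iff_eq_empty, Finset.sdiff_eq_empty_iff_subset] at hd
          obtain ⟨w, hw⟩ := hne
          have hrQ : r ∈ (Q : Set W) := closed_reach G (Q := (Q : Set W))
            (fun a ha b hab => hQc a ha b hab) hw (hre1' w (hd hw)).symm
          refine hmQ.trans (Finset.card_le_card ?_)
          intro x hx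
          exact closed_reach G (Q := (Q : Set W)) (fun a ha b hab => hQc a ha b hab) hrQ (hre1' x hx)

/-- FOR. -/
theorem for_ : ForStmt := by
  intro W _ _ G B T m hBT hyp
  exact forest G B.card B T m rfl hBT hyp

end Pool.Agent.CGP.H17
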